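import Mathlib

/-!
Expander decomposition of a finite multigraph given by its edge set and its two
end maps.
-/

namespace Pool.Agent.LN61

open Finset

open scoped Classical in
/-- Number of (edge, end) incidences of `K` with `X`. -/
noncomputable def vol {E V : Type*} (a b : E → V) (K : Finset E) (X : Set V) : ℕ :=
  (K.filter (fun e => a e ∈ X)).card + (K.filter (fun e => b e ∈ X)).card

open scoped Classical in
/-- Number of edges of `K` with exactly one end in `X`. -/
noncomputable def bdy {E V : Type*} (a b : E → V) (K : Finset E) (X : Set V) : ℕ :=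
  (K.filter (fun e => a e ∈ X ∧ b e ∉ X)).card + (K.filter (fun e => a e ∉ X ∧ b e ∈ X)).card

open scoped Classical in
/-- Number of edges of `K` with both ends in `X`. -/
noncomputable def ins {E V : Type*} (a b : E → V) (K : Finset E) (X : Set V) : Finset E :=
  K.filter (fun e => a e ∈ X ∧ b e ∈ X)

/-- `K` is a `φ`-expander. -/
def IsExpander {E V : Type*} (a b : E → V) (φ : ℝ) (K : Finset E) : Prop :=
  ∀ X : Set V, φ * min (vol a b K X : ℝ) (vol a b K Xᶜ) ≤ bdy a b K X

variable {E V : Type*}

theorem mem_ins {a b : E → V} {K : Finset E} {X : Set V} {e : E} :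
    e ∈ ins a b K X ↔ e ∈ K ∧ a e ∈ X ∧ b e ∈ X := by
  classical
  unfold ins
  simp only [Finset.mem_filter]

theorem ins_subset (a b : E → V) (K : Finset E) (X : Set V) : ins a b K X ⊆ K :=
  fun _ he => (mem_ins.1 he).1

theorem vol_eq (a b : E → V) (K : Finset E) (X : Set V) :
    vol a b K X = 2 * (ins a b K X).card + bdy a b K X := by
  classical
  unfold vol ins bdy
  have h1 : (K.filter (fun e => a e ∈ X)).card
      = (K.filter (fun e => a e ∈ X ∧ b e ∈ X)).card
        + (K.filter (fun e => a e ∈ X ∧ b e ∉ X)).card := by
    rw [← Finset.card_filter_add_card_filter_not (s := K.filter (fun e => a e ∈ X))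
      (fun e => b e ∈ X), Finset.filter_filter, Finset.filter_filter]
  have h2 : (K.filter (fun e => b e ∈ X)).card
      = (K.filter (fun e => a e ∈ X ∧ b e ∈ X)).card
        + (K.filter (fun e => a e ∉ X ∧ b e ∈ X)).card := by
    rw [← Finset.card_filter_add_card_filter_not (s := K.filter (fun e => b e ∈ X))
      (fun e => a e ∈ X), Finset.filter_filter, Finset.filter_filter]
    congr 1
    · congr 1
      ext e
      simp only [Finset.mem_filter]
      tauto
    · congr 1
      ext e
      simp only [Finset.mem_filter]
      tauto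
  omega

theorem bdy_compl (a b : E → V) (K : Finset E) (X : Set V) :
    bdy a b K Xᶜ = bdy a b K X := by
  classical
  unfold bdy
  rw [Nat.add_comm]
  congr 1
  · congr 1
    ext e
    simp only [Finset.mem_filter, Set.mem_compl_iff]
    tauto
  · congr 1
    ext e
    simp only [Finset.mem_filter, Set.mem_compl_iff]
    tauto

theorem card_eq_ins (a b : E → V) (K : Finset E) (X : Set V) :
    K.card = (ins a b K X).card + (ins a b K Xᶜ).card + bdy a b K X := by
  classical
  unfold bdy
  have h1 : K.card = (K.filter (fun e => a e ∈ X)).card + (K.filter (fun e => a e ∉ X)).card :=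
    (Finset.card_filter_add_card_filter_not (s := K) (fun e => a e ∈ X)).symm
  have h2 : (K.filter (fun e => a e ∈ X)).card
      = (K.filter (fun e => a e ∈ X ∧ b e ∈ X)).card
        + (K.filter (fun e => a e ∈ X ∧ b e ∉ X)).card := by
    rw [← Finset.card_filter_add_card_filter_not (s := K.filter (fun e => a e ∈ X))
      (fun e => b e ∈ X), Finset.filter_filter, Finset.filter_filter]
  have h3 : (K.filter (fun e => a e ∉ X)).card
      = (K.filter (fun e => a e ∉ X ∧ b e ∈ X)).card
        + (K.filter (fun e => a e ∉ X ∧ b e ∉ X)).card := by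
    rw [← Finset.card_filter_add_card_filter_not (s := K.filter (fun e => a e ∉ X))
      (fun e => b e ∈ X), Finset.filter_filter, Finset.filter_filter]
  have h4 : (ins a b K Xᶜ).card
      = (K.filter (fun e => a e ∉ X ∧ b e ∉ X)).card := by
    congr 1
    ext e
    rw [mem_ins]
    simp only [Finset.mem_filter, Set.mem_compl_iff]
  have h5 : (ins a b K X).card = (K.filter (fun e => a e ∈ X ∧ b e ∈ X)).card := by
    congr 1
  rw [h4, h5]
  omega

open scoped Classical in
/-- One level: vertex-disjoint expanders covering most of the edges. -/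
theorem one_level [DecidableEq E] (a b : E → V) {φ : ℝ} (h0 : 0 ≤ φ) (h1 : φ ≤ 1 / 2) :
    ∀ (m : ℕ) (F : Finset E), F.card = m → ∀ j : ℕ, F.card ≤ 2 ^ j →
      ∃ KK : Finset (Finset E),
        (∀ K ∈ KK, K ⊆ F ∧ K.Nonempty ∧ IsExpander a b φ K) ∧
        (∀ v : V, (KK.filter (fun K => ∃ e ∈ K, a e = v ∨ b e = v)).card ≤ 1) ∧
        (((F \ KK.biUnion id).card : ℝ) ≤ 4 * φ * j * F.card) := by
  intro m
  induction m using Nat.strong_induction_on with
  | _ m ih =>
    intro F hFm j hj
    by_cases hexp : IsExpander a b φ F
    · by_cases hne : F.Nonempty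
      · refine ⟨{F}, ?_, ?_, ?_⟩
        · intro K hK
          rw [Finset.mem_singleton] at hK
          subst hK
          exact ⟨Finset.Subset.refl _, hne, hexp⟩
        · intro v
          exact (Finset.card_le_card (Finset.filter_subset _ _)).trans (by simp)
        · have : F \ ({F} : Finset (Finset E)).biUnion id = ∅ := by simp
          rw [this]
          simp only [Finset.card_empty, Nat.cast_zero]
          positivity
      · rw [Finset.not_nonempty_iff_eq_empty] at hne
        subst hne
        exact ⟨∅, by simp, by simp, by simp⟩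
    · unfold IsExpander at hexp
      push Not at hexp
      obtain ⟨X, hX⟩ := hexp
      set F1 := ins a b F X with hF1
      set F2 := ins a b F Xᶜ with hF2
      have hcard : F.card = F1.card + F2.card + bdy a b F X := card_eq_ins a b F X
      have hv1 : vol a b F X = 2 * F1.card + bdy a b F X := vol_eq a b F X
      have hv2 : vol a b F Xᶜ = 2 * F2.card + bdy a b F X := by
        have := vol_eq a b F Xᶜ
        rwa [bdy_compl] at this
      have hmin1 : (bdy a b F X : ℝ) < φ * vol a b F X :=
        lt_of_lt_of_le hX (mul_le_mul_of_nonneg_left (min_le_left _ _) h0)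
      have hmin2 : (bdy a b F X : ℝ) < φ * vol a b F Xᶜ :=
        lt_of_lt_of_le hX (mul_le_mul_of_nonneg_left (min_le_right _ _) h0)
      rw [hv1] at hmin1
      rw [hv2] at hmin2
      push_cast at hmin1 hmin2
      have hb0 : (0 : ℝ) ≤ bdy a b F X := Nat.cast_nonneg _
      have hb1 : (bdy a b F X : ℝ) ≤ 4 * φ * F1.card := by
        have : (bdy a b F X : ℝ) * (1 - φ) ≤ 2 * φ * F1.card := by nlinarith
        nlinarith
      have hb2 : (bdy a b F X : ℝ) ≤ 4 * φ * F2.card := by
        have : (bdy a b F X : ℝ) * (1 - φ) ≤ 2 * φ * F2.card := by nlinarith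
        nlinarith
      have hpos1 : 0 < F1.card := by
        rcases Nat.eq_zero_or_pos F1.card with h | h
        · rw [h] at hmin1
          simp only [Nat.cast_zero, mul_zero, zero_add] at hmin1
          nlinarith
        · exact h
      have hpos2 : 0 < F2.card := by
        rcases Nat.eq_zero_or_pos F2.card with h | h
        · rw [h] at hmin2
          simp only [Nat.cast_zero, mul_zero, zero_add] at hmin2
          nlinarith
        · exact h
      have hj1 : 1 ≤ j := by
        rcases Nat.eq_zero_or_pos j with h | h
        · subst h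
          simp only [pow_zero] at hj
          omega
        · exact h
      obtain ⟨j', rfl⟩ : ∃ j', j = j' + 1 := ⟨j - 1, by omega⟩
      -- bounds for the exponents of the two sides
      obtain ⟨j1, j2, hj1', hj2', hsum⟩ : ∃ j1 j2 : ℕ, F1.card ≤ 2 ^ j1 ∧ F2.card ≤ 2 ^ j2 ∧
          ((bdy a b F X : ℝ) + 4 * φ * j1 * F1.card + 4 * φ * j2 * F2.card
            ≤ 4 * φ * ((j' + 1 : ℕ) : ℝ) * F.card) := by
        have hFr : (F.card : ℝ) = F1.card + F2.card + bdy a b F X := by
          exact_mod_cast hcard
        have hpp : 0 ≤ φ * (bdy a b F X : ℝ) := mul_nonneg h0 hb0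
        have hjj : (0 : ℝ) ≤ j' := Nat.cast_nonneg _
        have hpj : 0 ≤ φ * (bdy a b F X : ℝ) * j' := mul_nonneg hpp hjj
        rcases le_total F1.card F2.card with h | h
        · refine ⟨j', j' + 1, ?_, by omega, ?_⟩
          · rw [pow_succ] at hj
            omega
          · rw [hFr]
            push_cast
            nlinarith
        · refine ⟨j' + 1, j', by omega, ?_, ?_⟩
          · rw [pow_succ] at hj
            omega
          · rw [hFr]
            push_cast
            nlinarith
      obtain ⟨K1, hK1a, hK1b, hK1c⟩ := ih F1.card (by omega) F1 rfl j1 hj1'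
      obtain ⟨K2, hK2a, hK2b, hK2c⟩ := ih F2.card (by omega) F2 rfl j2 hj2'
      refine ⟨K1 ∪ K2, ?_, ?_, ?_⟩
      · intro K hK
        rcases Finset.mem_union.1 hK with h | h
        · obtain ⟨h1, h2, h3⟩ := hK1a K h
          exact ⟨h1.trans (ins_subset _ _ _ _), h2, h3⟩
        · obtain ⟨h1, h2, h3⟩ := hK2a K h
          exact ⟨h1.trans (ins_subset _ _ _ _), h2, h3⟩
      · intro v
        by_cases hv : v ∈ X
        · have : (K1 ∪ K2).filter (fun K => ∃ e ∈ K, a e = v ∨ b e = v)
              ⊆ K1.filter (fun K => ∃ e ∈ K, a e = v ∨ b e = v) := by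
            intro K hK
            rw [Finset.mem_filter] at hK ⊢
            refine ⟨?_, hK.2⟩
            rcases Finset.mem_union.1 hK.1 with h | h
            · exact h
            · exfalso
              obtain ⟨e, he, hev⟩ := hK.2
              have h2 := (hK2a K h).1 he
              rw [hF2, mem_ins] at h2
              rcases hev with h3 | h3
              · exact h2.2.1 (h3 ▸ hv)
              · exact h2.2.2 (h3 ▸ hv)
          exact (Finset.card_le_card this).trans (hK1b v)
        · have : (K1 ∪ K2).filter (fun K => ∃ e ∈ K, a e = v ∨ b e = v)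
              ⊆ K2.filter (fun K => ∃ e ∈ K, a e = v ∨ b e = v) := by
            intro K hK
            rw [Finset.mem_filter] at hK ⊢
            refine ⟨?_, hK.2⟩
            rcases Finset.mem_union.1 hK.1 with h | h
            · exfalso
              obtain ⟨e, he, hev⟩ := hK.2
              have h2 := (hK1a K h).1 he
              rw [hF1, mem_ins] at h2
              rcases hev with h3 | h3
              · exact hv (h3 ▸ h2.2.1)
              · exact hv (h3 ▸ h2.2.2)
            · exact h
          exact (Finset.card_le_card this).trans (hK2b v)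
      · -- lost edges
        have hsub : F \ (K1 ∪ K2).biUnion id
            ⊆ (F \ (F1 ∪ F2)) ∪ (F1 \ K1.biUnion id) ∪ (F2 \ K2.biUnion id) := by
          intro e he
          rw [Finset.mem_sdiff] at he
          have hn1 : e ∉ K1.biUnion id := fun h => he.2 (by
            rw [Finset.mem_biUnion] at h ⊢
            obtain ⟨K, hK, hh⟩ := h
            exact ⟨K, Finset.mem_union_left _ hK, hh⟩)
          have hn2 : e ∉ K2.biUnion id := fun h => he.2 (by
            rw [Finset.mem_biUnion] at h ⊢
            obtain ⟨K, hK, hh⟩ := h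
            exact ⟨K, Finset.mem_union_right _ hK, hh⟩)
          by_cases h1 : e ∈ F1
          · exact Finset.mem_union_left _ (Finset.mem_union_right _
              (Finset.mem_sdiff.2 ⟨h1, hn1⟩))
          · by_cases h2 : e ∈ F2
            · exact Finset.mem_union_right _ (Finset.mem_sdiff.2 ⟨h2, hn2⟩)
            · refine Finset.mem_union_left _ (Finset.mem_union_left _
                (Finset.mem_sdiff.2 ⟨he.1, fun h => ?_⟩))
              rcases Finset.mem_union.1 h with h | h
              · exact h1 h
              · exact h2 h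
        have hc1 : (F \ (F1 ∪ F2)).card = bdy a b F X := by
          have hdisj : Disjoint F1 F2 := by
            rw [Finset.disjoint_left]
            intro e h1 h2
            rw [hF1, mem_ins] at h1
            rw [hF2, mem_ins] at h2
            exact h2.2.1 h1.2.1
          have hsubF : F1 ∪ F2 ⊆ F :=
            Finset.union_subset (ins_subset _ _ _ _) (ins_subset _ _ _ _)
          have h3 := Finset.card_sdiff_add_card_eq_card hsubF
          rw [Finset.card_union_of_disjoint hdisj] at h3
          omega
        have hc2 : (F \ (K1 ∪ K2).biUnion id).card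
            ≤ bdy a b F X + (F1 \ K1.biUnion id).card + (F2 \ K2.biUnion id).card := by
          calc (F \ (K1 ∪ K2).biUnion id).card
              ≤ ((F \ (F1 ∪ F2)) ∪ (F1 \ K1.biUnion id) ∪ (F2 \ K2.biUnion id)).card :=
                Finset.card_le_card hsub
            _ ≤ ((F \ (F1 ∪ F2)) ∪ (F1 \ K1.biUnion id)).card + (F2 \ K2.biUnion id).card :=
                Finset.card_union_le _ _
            _ ≤ _ := by
                have := Finset.card_union_le (F \ (F1 ∪ F2)) (F1 \ K1.biUnion id)
                omega
        have hc3 : (((F \ (K1 ∪ K2).biUnion id).card : ℕ) : ℝ)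
            ≤ bdy a b F X + (F1 \ K1.biUnion id).card + (F2 \ K2.biUnion id).card := by
          exact_mod_cast hc2
        linarith

open scoped Classical in
/-- Expander decomposition: the edges are partitioned into expanders, every
vertex meets at most `k + 1` of them. -/
theorem expander_decomp [DecidableEq E] (a b : E → V) (k : ℕ) (hk : 1 ≤ k) :
    ∀ (i : ℕ) (F : Finset E), F.card < 2 ^ i → F.card ≤ 2 ^ k →
      ∃ KK : Finset (Finset E),
        (∀ K ∈ KK, K ⊆ F ∧ K.Nonempty ∧ IsExpander a b (1 / (8 * k)) K) ∧
        (∀ e ∈ F, ∃ K ∈ KK, e ∈ K) ∧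
        (∀ K ∈ KK, ∀ K' ∈ KK, K ≠ K' → Disjoint K K') ∧
        (∀ v : V, (KK.filter (fun K => ∃ e ∈ K, a e = v ∨ b e = v)).card ≤ i) := by
  have hkr : (1 : ℝ) ≤ k := by exact_mod_cast hk
  have hφ0 : (0 : ℝ) ≤ 1 / (8 * k) := by positivity
  have hφ1 : (1 : ℝ) / (8 * k) ≤ 1 / 2 := by
    rw [div_le_div_iff₀ (by positivity) (by norm_num)]
    linarith
  intro i
  induction i with
  | zero =>
    intro F hF _
    have : F = ∅ := by
      rw [← Finset.card_eq_zero]
      simp only [pow_zero] at hF
      omega
    subst this
    exact ⟨∅, by simp, by simp, by simp, by simp⟩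
  | succ i ih =>
    intro F hF hFk
    obtain ⟨K0, h0a, h0b, h0c⟩ := one_level a b hφ0 hφ1 F.card F rfl k hFk
    set L := F \ K0.biUnion id with hL
    have hL1 : (L.card : ℝ) ≤ F.card / 2 := by
      refine h0c.trans (le_of_eq ?_)
      field_simp
      ring
    have hL2 : 2 * L.card ≤ F.card := by
      have : (2 : ℝ) * L.card ≤ F.card := by linarith
      exact_mod_cast this
    obtain ⟨K1, h1a, h1b, h1c, h1d⟩ := ih L (by rw [pow_succ] at hF; omega) (by omega)
    refine ⟨K0 ∪ K1, ?_, ?_, ?_, ?_⟩
    · intro K hK
      rcases Finset.mem_union.1 hK with h | h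
      · exact h0a K h
      · obtain ⟨h1, h2, h3⟩ := h1a K h
        exact ⟨h1.trans Finset.sdiff_subset, h2, h3⟩
    · intro e he
      by_cases h : e ∈ K0.biUnion id
      · rw [Finset.mem_biUnion] at h
        obtain ⟨K, hK, hh⟩ := h
        exact ⟨K, Finset.mem_union_left _ hK, hh⟩
      · obtain ⟨K, hK, hh⟩ := h1b e (Finset.mem_sdiff.2 ⟨he, h⟩)
        exact ⟨K, Finset.mem_union_right _ hK, hh⟩
    · intro K hK K' hK' hne
      rw [Finset.disjoint_left]
      intro e he he'
      have hcase1 : ∀ K ∈ K0, ∀ K' ∈ K1, e ∈ K → e ∈ K' → False := by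
        intro K hK K' hK' he he'
        have h1 := (h1a K' hK').1 he'
        rw [hL, Finset.mem_sdiff] at h1
        exact h1.2 (Finset.mem_biUnion.2 ⟨K, hK, he⟩)
      rcases Finset.mem_union.1 hK with h | h
      · rcases Finset.mem_union.1 hK' with h' | h'
        · have h2 := h0b (a e)
          rw [Finset.card_le_one] at h2
          exact hne (h2 K (Finset.mem_filter.2 ⟨h, e, he, Or.inl rfl⟩) K'
            (Finset.mem_filter.2 ⟨h', e, he', Or.inl rfl⟩))
        · exact hcase1 K h K' h' he he'
      · rcases Finset.mem_union.1 hK' with h' | h'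
        · exact hcase1 K' h' K h he' he
        · exact (Finset.disjoint_left.1 (h1c K h K' h' hne)) he he'
    · intro v
      rw [Finset.filter_union]
      refine (Finset.card_union_le _ _).trans ?_
      have h1 := h0b v
      have h2 := h1d v
      omega

end Pool.Agent.LN61
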