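import Mathlib
import Pool.Agent.LN61.Expander

/-!
The cut lemma: vertex-wise bounds inside the pieces of an expander decomposition
control the number of edges with forbidden colours across every cut.
-/

namespace Pool.Agent.LN61

open Finset

open scoped Classical

/-- Vertices of `X` that are incident (through `f`) with an edge of `K`. -/
noncomputable def incV {E A : Type*} (f : E → A) (K : Finset E) (X : Finset A) : Finset A :=
  X.filter (fun v => ∃ e ∈ K, f e = v)

/-- Degree of `w` in `K` (through `f`). -/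
noncomputable def dg {E A : Type*} (f : E → A) (K : Finset E) (w : A) : ℕ :=
  (K.filter (fun e => f e = w)).card

theorem card_filter_mem_eq {E A : Type*} (f : E → A) (K : Finset E) (X : Finset A)
    (r : E → Prop) [DecidablePred r] :
    (K.filter (fun e => f e ∈ X ∧ r e)).card
      = ∑ v ∈ incV f K X, (K.filter (fun e => f e = v ∧ r e)).card := by
  rw [Finset.card_eq_sum_card_fiberwise (f := f) (t := incV f K X)]
  · refine Finset.sum_congr rfl fun v hv => ?_
    rw [Finset.filter_filter]
    congr 1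
    ext e
    simp only [Finset.mem_filter]
    have hvX : v ∈ X := (Finset.mem_filter.1 hv).1
    constructor
    · rintro ⟨h1, ⟨h2, h3⟩, h4⟩
      exact ⟨h1, h4, h3⟩
    · rintro ⟨h1, h2, h3⟩
      exact ⟨h1, ⟨h2 ▸ hvX, h3⟩, h2⟩
  · intro e he
    rw [Finset.mem_coe, Finset.mem_filter] at he
    rw [Finset.mem_coe, incV, Finset.mem_filter]
    exact ⟨he.2.1, e, he.1, rfl⟩

/-- The bound inside one expander piece. -/
theorem outP_piece {E A B Γ : Type*} (la : E → A) (lb : E → B) (row : E → Γ)
    (K : Finset E) (X : Finset A) (Q : Finset B) (P : Finset Γ) {φ ε θ : ℝ}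
    (hφ : 0 < φ) (hε : 0 ≤ ε) (hθ : 0 ≤ θ)
    (hexp : φ * min (((K.filter (fun e => la e ∈ X)).card : ℝ) + (K.filter (fun e => lb e ∈ Q)).card)
        (((K.filter (fun e => la e ∉ X)).card : ℝ) + (K.filter (fun e => lb e ∉ Q)).card)
      ≤ ((K.filter (fun e => la e ∈ X ∧ lb e ∉ Q)).card : ℝ)
        + (K.filter (fun e => la e ∉ X ∧ lb e ∈ Q)).card)
    (H1 : ∀ v ∈ X, ((K.filter (fun e => la e = v ∧ row e ∈ P)).card : ℝ) ≤ ε * dg la K v + θ)
    (H2 : ∀ w, ((K.filter (fun e => lb e = w ∧ row e ∈ P)).card : ℝ) ≤ ε * dg lb K w + θ)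
    (H3 : ∀ v ∈ X, ((K.filter (fun e => la e = v ∧ (ε * dg lb K (lb e) < θ ∧ row e ∈ P))).card : ℝ)
      ≤ ε * (K.filter (fun e => la e = v ∧ ε * dg lb K (lb e) < θ)).card + θ) :
    ((K.filter (fun e => la e ∈ X ∧ (lb e ∉ Q ∧ row e ∈ P))).card : ℝ)
      ≤ 2 * ε / φ * (((K.filter (fun e => la e ∈ X ∧ lb e ∉ Q)).card : ℝ)
          + (K.filter (fun e => la e ∉ X ∧ lb e ∈ Q)).card)
        + ε * (K.filter (fun e => la e ∈ X ∧ lb e ∉ Q)).card
        + θ * ((incV la K X).card + (incV lb K Q).card) := by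
  set out : ℝ := ((K.filter (fun e => la e ∈ X ∧ lb e ∉ Q)).card : ℝ) with hout
  set inn : ℝ := ((K.filter (fun e => la e ∉ X ∧ lb e ∈ Q)).card : ℝ) with hinn
  have hout0 : 0 ≤ out := Nat.cast_nonneg _
  have hinn0 : 0 ≤ inn := Nat.cast_nonneg _
  have hiX : (0 : ℝ) ≤ (incV la K X).card := Nat.cast_nonneg _
  have hiQ : (0 : ℝ) ≤ (incV lb K Q).card := Nat.cast_nonneg _
  rcases le_total (((K.filter (fun e => la e ∈ X)).card : ℝ) + (K.filter (fun e => lb e ∈ Q)).card)
      (((K.filter (fun e => la e ∉ X)).card : ℝ) + (K.filter (fun e => lb e ∉ Q)).card) with h | h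
  · -- the left side is small
    rw [min_eq_left h] at hexp
    have h1 : ((K.filter (fun e => la e ∈ X ∧ (lb e ∉ Q ∧ row e ∈ P))).card : ℝ)
        ≤ (K.filter (fun e => la e ∈ X ∧ row e ∈ P)).card := by
      have : (K.filter (fun e => la e ∈ X ∧ (lb e ∉ Q ∧ row e ∈ P))).card
          ≤ (K.filter (fun e => la e ∈ X ∧ row e ∈ P)).card := by
        refine Finset.card_le_card fun e he => ?_
        rw [Finset.mem_filter] at he ⊢
        exact ⟨he.1, he.2.1, he.2.2.2⟩
      exact_mod_cast this
    have h2 : ((K.filter (fun e => la e ∈ X ∧ row e ∈ P)).card : ℝ)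
        ≤ ε * (K.filter (fun e => la e ∈ X)).card + θ * (incV la K X).card := by
      rw [card_filter_mem_eq la K X (fun e => row e ∈ P)]
      have h3 : ((K.filter (fun e => la e ∈ X)).card : ℝ)
          = ∑ v ∈ incV la K X, (dg la K v : ℝ) := by
        have := card_filter_mem_eq la K X (fun _ => True)
        simp only [and_true] at this
        rw [this]
        push_cast
        rfl
      rw [h3]
      push_cast
      calc ∑ v ∈ incV la K X, ((K.filter (fun e => la e = v ∧ row e ∈ P)).card : ℝ)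
          ≤ ∑ v ∈ incV la K X, (ε * dg la K v + θ) := Finset.sum_le_sum fun v hv => H1 v (Finset.mem_filter.1 hv).1
        _ = ε * ∑ v ∈ incV la K X, (dg la K v : ℝ) + θ * (incV la K X).card := by
            rw [Finset.sum_add_distrib, Finset.mul_sum, Finset.sum_const, nsmul_eq_mul]
            ring
    have h4 : ((K.filter (fun e => la e ∈ X)).card : ℝ) ≤ (out + inn) / φ := by
      rw [le_div_iff₀ hφ]
      have : (0 : ℝ) ≤ (K.filter (fun e => lb e ∈ Q)).card := Nat.cast_nonneg _
      nlinarith
    have h5 : ε * ((K.filter (fun e => la e ∈ X)).card : ℝ) ≤ 2 * ε / φ * (out + inn) := by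
      have h6 := mul_le_mul_of_nonneg_left h4 hε
      have h7 : ε * ((out + inn) / φ) = ε / φ * (out + inn) := by ring
      have h8 : (0 : ℝ) ≤ ε / φ * (out + inn) := by positivity
      have h9 : 2 * ε / φ * (out + inn) = ε / φ * (out + inn) + ε / φ * (out + inn) := by ring
      linarith
    have h10 : 0 ≤ ε * out := mul_nonneg hε hout0
    have h11 : 0 ≤ θ * ((incV lb K Q).card : ℝ) := mul_nonneg hθ hiQ
    nlinarith
  · rw [min_eq_right h] at hexp
    -- split into high and low
    have hsplit : ((K.filter (fun e => la e ∈ X ∧ (lb e ∉ Q ∧ row e ∈ P))).card : ℝ)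
        ≤ ((K.filter (fun e => lb e ∉ Q ∧ (¬ ε * dg lb K (lb e) < θ ∧ row e ∈ P))).card : ℝ)
          + (K.filter (fun e => la e ∈ X ∧ (ε * dg lb K (lb e) < θ ∧ row e ∈ P))).card := by
      have : (K.filter (fun e => la e ∈ X ∧ (lb e ∉ Q ∧ row e ∈ P))).card
          ≤ (K.filter (fun e => lb e ∉ Q ∧ (¬ ε * dg lb K (lb e) < θ ∧ row e ∈ P))).card
          + (K.filter (fun e => la e ∈ X ∧ (ε * dg lb K (lb e) < θ ∧ row e ∈ P))).card := by
        refine le_trans (Finset.card_le_card ?_) (Finset.card_union_le _ _)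
        intro e he
        rw [Finset.mem_filter] at he
        rw [Finset.mem_union, Finset.mem_filter, Finset.mem_filter]
        by_cases hlow : ε * dg lb K (lb e) < θ
        · exact Or.inr ⟨he.1, he.2.1, hlow, he.2.2.2⟩
        · exact Or.inl ⟨he.1, he.2.2.1, hlow, he.2.2.2⟩
      exact_mod_cast this
    -- high part
    have hhigh : ((K.filter (fun e => lb e ∉ Q ∧ (¬ ε * dg lb K (lb e) < θ ∧ row e ∈ P))).card : ℝ)
        ≤ 2 * ε * (K.filter (fun e => lb e ∉ Q)).card := by
      set W : Finset B := (K.image lb).filter (fun w => w ∉ Q ∧ ¬ ε * dg lb K w < θ) with hW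
      have e1 : ((K.filter (fun e => lb e ∉ Q ∧ (¬ ε * dg lb K (lb e) < θ ∧ row e ∈ P))).card : ℝ)
          ≤ (K.filter (fun e => lb e ∈ W ∧ row e ∈ P)).card := by
        have : (K.filter (fun e => lb e ∉ Q ∧ (¬ ε * dg lb K (lb e) < θ ∧ row e ∈ P))).card
            ≤ (K.filter (fun e => lb e ∈ W ∧ row e ∈ P)).card := by
          refine Finset.card_le_card fun e he => ?_
          rw [Finset.mem_filter] at he ⊢
          refine ⟨he.1, ?_, he.2.2.2⟩
          rw [hW, Finset.mem_filter]
          exact ⟨Finset.mem_image_of_mem _ he.1, he.2.1, he.2.2.1⟩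
        exact_mod_cast this
      have e2 : ((K.filter (fun e => lb e ∈ W ∧ row e ∈ P)).card : ℝ)
          ≤ 2 * ε * (K.filter (fun e => lb e ∈ W)).card := by
        rw [card_filter_mem_eq lb K W (fun e => row e ∈ P)]
        have h3 : ((K.filter (fun e => lb e ∈ W)).card : ℝ)
            = ∑ v ∈ incV lb K W, (dg lb K v : ℝ) := by
          have := card_filter_mem_eq lb K W (fun _ => True)
          simp only [and_true] at this
          rw [this]
          push_cast
          rfl
        rw [h3, Finset.mul_sum]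
        push_cast
        refine Finset.sum_le_sum fun v hv => ?_
        have hvW : v ∈ W := (Finset.mem_filter.1 hv).1
        have h4 : ¬ ε * dg lb K v < θ := (Finset.mem_filter.1 hvW).2.2
        have h5 := H2 v
        push Not at h4
        linarith
      have e3 : ((K.filter (fun e => lb e ∈ W)).card : ℝ) ≤ (K.filter (fun e => lb e ∉ Q)).card := by
        have : (K.filter (fun e => lb e ∈ W)).card ≤ (K.filter (fun e => lb e ∉ Q)).card := by
          refine Finset.card_le_card fun e he => ?_
          rw [Finset.mem_filter] at he ⊢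
          exact ⟨he.1, (Finset.mem_filter.1 he.2).2.1⟩
        exact_mod_cast this
      have e4 := mul_le_mul_of_nonneg_left e3 (by positivity : (0 : ℝ) ≤ 2 * ε)
      linarith
    have hhigh2 : 2 * ε * ((K.filter (fun e => lb e ∉ Q)).card : ℝ) ≤ 2 * ε / φ * (out + inn) := by
      have h4 : ((K.filter (fun e => lb e ∉ Q)).card : ℝ) ≤ (out + inn) / φ := by
        rw [le_div_iff₀ hφ]
        have : (0 : ℝ) ≤ (K.filter (fun e => la e ∉ X)).card := Nat.cast_nonneg _
        nlinarith
      have h6 := mul_le_mul_of_nonneg_left h4 (by positivity : (0 : ℝ) ≤ 2 * ε)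
      have h7 : 2 * ε * ((out + inn) / φ) = 2 * ε / φ * (out + inn) := by ring
      linarith
    -- low part
    have hlow1 : ((K.filter (fun e => la e ∈ X ∧ (ε * dg lb K (lb e) < θ ∧ row e ∈ P))).card : ℝ)
        ≤ ε * (K.filter (fun e => la e ∈ X ∧ ε * dg lb K (lb e) < θ)).card
          + θ * (incV la K X).card := by
      rw [card_filter_mem_eq la K X (fun e => ε * dg lb K (lb e) < θ ∧ row e ∈ P),
        card_filter_mem_eq la K X (fun e => ε * dg lb K (lb e) < θ)]
      push_cast
      calc ∑ v ∈ incV la K X,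
            ((K.filter (fun e => la e = v ∧ (ε * dg lb K (lb e) < θ ∧ row e ∈ P))).card : ℝ)
          ≤ ∑ v ∈ incV la K X,
              (ε * (K.filter (fun e => la e = v ∧ ε * dg lb K (lb e) < θ)).card + θ) :=
            Finset.sum_le_sum fun v hv => H3 v (Finset.mem_filter.1 hv).1
        _ = _ := by
            rw [Finset.sum_add_distrib, Finset.mul_sum, Finset.sum_const, nsmul_eq_mul]
            ring
    have hlow2 : ε * ((K.filter (fun e => la e ∈ X ∧ ε * dg lb K (lb e) < θ)).card : ℝ)
        ≤ ε * out + θ * (incV lb K Q).card := by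
      have f1 : ((K.filter (fun e => la e ∈ X ∧ ε * dg lb K (lb e) < θ)).card : ℝ)
          ≤ out + (K.filter (fun e => lb e ∈ Q ∧ ε * dg lb K (lb e) < θ)).card := by
        have : (K.filter (fun e => la e ∈ X ∧ ε * dg lb K (lb e) < θ)).card
            ≤ (K.filter (fun e => la e ∈ X ∧ lb e ∉ Q)).card
              + (K.filter (fun e => lb e ∈ Q ∧ ε * dg lb K (lb e) < θ)).card := by
          refine le_trans (Finset.card_le_card ?_) (Finset.card_union_le _ _)
          intro e he
          rw [Finset.mem_filter] at he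
          rw [Finset.mem_union, Finset.mem_filter, Finset.mem_filter]
          by_cases hQ : lb e ∈ Q
          · exact Or.inr ⟨he.1, hQ, he.2.2⟩
          · exact Or.inl ⟨he.1, he.2.1, hQ⟩
        rw [hout]
        exact_mod_cast this
      have f2 : ε * ((K.filter (fun e => lb e ∈ Q ∧ ε * dg lb K (lb e) < θ)).card : ℝ)
          ≤ θ * (incV lb K Q).card := by
        rw [card_filter_mem_eq lb K Q (fun e => ε * dg lb K (lb e) < θ)]
        push_cast
        rw [Finset.mul_sum]
        calc ∑ w ∈ incV lb K Q,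
              ε * ((K.filter (fun e => lb e = w ∧ ε * dg lb K (lb e) < θ)).card : ℝ)
            ≤ ∑ w ∈ incV lb K Q, θ := by
              refine Finset.sum_le_sum fun w _ => ?_
              by_cases hw : ε * dg lb K w < θ
              · have : ((K.filter (fun e => lb e = w ∧ ε * dg lb K (lb e) < θ)).card : ℝ)
                    ≤ dg lb K w := by
                  have : (K.filter (fun e => lb e = w ∧ ε * dg lb K (lb e) < θ)).card
                      ≤ dg lb K w := by
                    refine Finset.card_le_card fun e he => ?_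
                    rw [Finset.mem_filter] at he ⊢
                    exact ⟨he.1, he.2.1⟩
                  exact_mod_cast this
                have h2 := mul_le_mul_of_nonneg_left this hε
                linarith
              · have : (K.filter (fun e => lb e = w ∧ ε * dg lb K (lb e) < θ)) = ∅ := by
                  rw [Finset.filter_eq_empty_iff]
                  rintro e _ ⟨h1, h2⟩
                  rw [h1] at h2
                  exact hw h2
                rw [this]
                simpa using hθ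
          _ = θ * (incV lb K Q).card := by
              rw [Finset.sum_const, nsmul_eq_mul]
              ring
      have f3 := mul_le_mul_of_nonneg_left f1 hε
      linarith
    linarith

/-- Total number of (piece, vertex) incidences. -/
theorem sum_incV_le {E A : Type*} (f : E → A) (KK : Finset (Finset E)) (X : Finset A) (k1 : ℕ)
    (h : ∀ v ∈ X, (KK.filter (fun K => ∃ e ∈ K, f e = v)).card ≤ k1) :
    ∑ K ∈ KK, (incV f K X).card ≤ k1 * X.card := by
  have h1 : ∑ K ∈ KK, (incV f K X).card
      = ∑ v ∈ X, (KK.filter (fun K => ∃ e ∈ K, f e = v)).card := by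
    simp only [incV, Finset.card_filter]
    rw [Finset.sum_comm]
  rw [h1]
  calc ∑ v ∈ X, (KK.filter (fun K => ∃ e ∈ K, f e = v)).card ≤ ∑ v ∈ X, k1 :=
        Finset.sum_le_sum h
    _ = k1 * X.card := by rw [Finset.sum_const, smul_eq_mul, Nat.mul_comm]

theorem card_filter_biUnion {E : Type*} (KK : Finset (Finset E))
    (hd : ∀ K ∈ KK, ∀ K' ∈ KK, K ≠ K' → Disjoint K K') (r : E → Prop) [DecidablePred r] :
    ((KK.biUnion id).filter r).card = ∑ K ∈ KK, (K.filter r).card := by
  rw [Finset.filter_biUnion, Finset.card_biUnion]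
  · rfl
  · intro K hK K' hK' hne
    exact Finset.disjoint_filter_filter (hd K hK K' hK' hne)

/-- The cut lemma. -/
theorem cut_lemma {E A B Γ : Type*} (la : E → A) (lb : E → B) (row : E → Γ)
    (F : Finset E) (KK : Finset (Finset E)) (hF : F = KK.biUnion id)
    (hd : ∀ K ∈ KK, ∀ K' ∈ KK, K ≠ K' → Disjoint K K')
    (X : Finset A) (Q : Finset B) (P : Finset Γ) {φ ε θ : ℝ} (D k1 n : ℕ)
    (hφ : 0 < φ) (hφ1 : φ ≤ 1) (hε : 0 ≤ ε) (hεφ : 20 * ε ≤ φ) (hθ : 0 ≤ θ)
    (hθD : 8 * θ * k1 * n ≤ D)
    (hexp : ∀ K ∈ KK, φ * min (((K.filter (fun e => la e ∈ X)).card : ℝ)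
          + (K.filter (fun e => lb e ∈ Q)).card)
        (((K.filter (fun e => la e ∉ X)).card : ℝ) + (K.filter (fun e => lb e ∉ Q)).card)
      ≤ ((K.filter (fun e => la e ∈ X ∧ lb e ∉ Q)).card : ℝ)
        + (K.filter (fun e => la e ∉ X ∧ lb e ∈ Q)).card)
    (H1 : ∀ K ∈ KK, ∀ v ∈ X, ((K.filter (fun e => la e = v ∧ row e ∈ P)).card : ℝ)
      ≤ ε * dg la K v + θ)
    (H2 : ∀ K ∈ KK, ∀ w, ((K.filter (fun e => lb e = w ∧ row e ∈ P)).card : ℝ)
      ≤ ε * dg lb K w + θ)
    (H3 : ∀ K ∈ KK, ∀ v ∈ X,
      ((K.filter (fun e => la e = v ∧ (ε * dg lb K (lb e) < θ ∧ row e ∈ P))).card : ℝ)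
      ≤ ε * (K.filter (fun e => la e = v ∧ ε * dg lb K (lb e) < θ)).card + θ)
    (hA : ∀ v ∈ X, (KK.filter (fun K => ∃ e ∈ K, la e = v)).card ≤ k1)
    (hB : ∀ w ∈ Q, (KK.filter (fun K => ∃ e ∈ K, lb e = w)).card ≤ k1)
    (hdA : ∀ v ∈ X, dg la F v = D) (hdB : ∀ w ∈ Q, dg lb F w ≤ D)
    (hQX : Q.card < X.card) (hXn : X.card ≤ n) :
    (D : ℝ) * ((X.card : ℝ) - Q.card) / 2
      ≤ (F.filter (fun e => la e ∈ X ∧ (lb e ∉ Q ∧ row e ∉ P))).card := by
  set out : ℝ := ((F.filter (fun e => la e ∈ X ∧ lb e ∉ Q)).card : ℝ) with hout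
  set inn : ℝ := ((F.filter (fun e => la e ∉ X ∧ lb e ∈ Q)).card : ℝ) with hinn
  set outP : ℝ := ((F.filter (fun e => la e ∈ X ∧ (lb e ∉ Q ∧ row e ∈ P))).card : ℝ) with houtP
  have hout0 : 0 ≤ out := Nat.cast_nonneg _
  have hinn0 : 0 ≤ inn := Nat.cast_nonneg _
  -- total bound for outP
  have h1 : outP ≤ 2 * ε / φ * (out + inn) + ε * out + θ * (k1 * (X.card + Q.card)) := by
    have e1 : outP = ∑ K ∈ KK, ((K.filter (fun e => la e ∈ X ∧ (lb e ∉ Q ∧ row e ∈ P))).card : ℝ) := by
      rw [houtP, hF, card_filter_biUnion KK hd]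
      push_cast
      rfl
    have e2 : out = ∑ K ∈ KK, ((K.filter (fun e => la e ∈ X ∧ lb e ∉ Q)).card : ℝ) := by
      rw [hout, hF, card_filter_biUnion KK hd]
      push_cast
      rfl
    have e3 : inn = ∑ K ∈ KK, ((K.filter (fun e => la e ∉ X ∧ lb e ∈ Q)).card : ℝ) := by
      rw [hinn, hF, card_filter_biUnion KK hd]
      push_cast
      rfl
    have e4 : ∑ K ∈ KK, (((incV la K X).card : ℝ) + (incV lb K Q).card)
        ≤ k1 * (X.card + Q.card) := by
      have g1 := sum_incV_le la KK X k1 hA
      have g2 := sum_incV_le lb KK Q k1 hB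
      have g1' : (∑ K ∈ KK, ((incV la K X).card : ℝ)) ≤ k1 * X.card := by exact_mod_cast g1
      have g2' : (∑ K ∈ KK, ((incV lb K Q).card : ℝ)) ≤ k1 * Q.card := by exact_mod_cast g2
      rw [Finset.sum_add_distrib]
      linarith
    have e5 : ∑ K ∈ KK, ((K.filter (fun e => la e ∈ X ∧ (lb e ∉ Q ∧ row e ∈ P))).card : ℝ)
        ≤ ∑ K ∈ KK, (2 * ε / φ * (((K.filter (fun e => la e ∈ X ∧ lb e ∉ Q)).card : ℝ)
            + (K.filter (fun e => la e ∉ X ∧ lb e ∈ Q)).card)
          + ε * (K.filter (fun e => la e ∈ X ∧ lb e ∉ Q)).card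
          + θ * ((incV la K X).card + (incV lb K Q).card)) :=
      Finset.sum_le_sum fun K hK => outP_piece la lb row K X Q P hφ hε hθ (hexp K hK)
        (H1 K hK) (H2 K hK) (H3 K hK)
    rw [Finset.sum_add_distrib, Finset.sum_add_distrib, ← Finset.mul_sum, ← Finset.mul_sum,
      ← Finset.mul_sum, Finset.sum_add_distrib, ← e2, ← e3, ← e1] at e5
    have e6 := mul_le_mul_of_nonneg_left e4 hθ
    linarith
  -- degrees
  have h2 : (D : ℝ) * X.card = (F.filter (fun e => la e ∈ X ∧ lb e ∈ Q)).card + out := by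
    have e1 : (F.filter (fun e => la e ∈ X)).card = D * X.card := by
      have h := card_filter_mem_eq la F X (fun _ => True)
      simp only [and_true] at h
      rw [h]
      have hsub : ∑ v ∈ incV la F X, (F.filter (fun e => la e = v)).card
          = ∑ v ∈ X, (F.filter (fun e => la e = v)).card := by
        refine Finset.sum_subset (Finset.filter_subset _ _) fun v hv hv' => ?_
        rw [Finset.card_eq_zero, Finset.filter_eq_empty_iff]
        intro e he hev
        exact hv' (Finset.mem_filter.2 ⟨hv, e, he, hev⟩)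
      rw [hsub]
      calc ∑ v ∈ X, (F.filter (fun e => la e = v)).card = ∑ v ∈ X, D :=
            Finset.sum_congr rfl hdA
        _ = D * X.card := by rw [Finset.sum_const, smul_eq_mul, Nat.mul_comm]
    have e2 : (F.filter (fun e => la e ∈ X)).card
        = (F.filter (fun e => la e ∈ X ∧ lb e ∈ Q)).card
          + (F.filter (fun e => la e ∈ X ∧ lb e ∉ Q)).card := by
      rw [← Finset.card_filter_add_card_filter_not (s := F.filter (fun e => la e ∈ X))
        (fun e => lb e ∈ Q), Finset.filter_filter, Finset.filter_filter]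
    rw [hout]
    have e3 : D * X.card = (F.filter (fun e => la e ∈ X ∧ lb e ∈ Q)).card
          + (F.filter (fun e => la e ∈ X ∧ lb e ∉ Q)).card := by omega
    exact_mod_cast e3
  have h3 : ((F.filter (fun e => la e ∈ X ∧ lb e ∈ Q)).card : ℝ) + inn ≤ (D : ℝ) * Q.card := by
    have e1 : (F.filter (fun e => lb e ∈ Q)).card ≤ D * Q.card := by
      have h := card_filter_mem_eq lb F Q (fun _ => True)
      simp only [and_true] at h
      rw [h]
      calc ∑ v ∈ incV lb F Q, (F.filter (fun e => lb e = v)).card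
          ≤ ∑ v ∈ Q, (F.filter (fun e => lb e = v)).card :=
            Finset.sum_le_sum_of_subset (Finset.filter_subset _ _)
        _ ≤ ∑ v ∈ Q, D := Finset.sum_le_sum hdB
        _ = D * Q.card := by rw [Finset.sum_const, smul_eq_mul, Nat.mul_comm]
    have e2 : (F.filter (fun e => lb e ∈ Q)).card
        = (F.filter (fun e => la e ∈ X ∧ lb e ∈ Q)).card
          + (F.filter (fun e => la e ∉ X ∧ lb e ∈ Q)).card := by
      rw [← Finset.card_filter_add_card_filter_not (s := F.filter (fun e => lb e ∈ Q))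
        (fun e => la e ∈ X), Finset.filter_filter, Finset.filter_filter]
      congr 1
      · congr 1
        ext e
        simp only [Finset.mem_filter]
        tauto
      · congr 1
        ext e
        simp only [Finset.mem_filter]
        tauto
    rw [hinn]
    have e3 : (F.filter (fun e => la e ∈ X ∧ lb e ∈ Q)).card
          + (F.filter (fun e => la e ∉ X ∧ lb e ∈ Q)).card ≤ D * Q.card := by omega
    exact_mod_cast e3
  have h4 : out = outP + (F.filter (fun e => la e ∈ X ∧ (lb e ∉ Q ∧ row e ∉ P))).card := by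
    have e2 : (F.filter (fun e => la e ∈ X ∧ lb e ∉ Q)).card
        = (F.filter (fun e => la e ∈ X ∧ (lb e ∉ Q ∧ row e ∈ P))).card
          + (F.filter (fun e => la e ∈ X ∧ (lb e ∉ Q ∧ row e ∉ P))).card := by
      rw [← Finset.card_filter_add_card_filter_not
        (s := F.filter (fun e => la e ∈ X ∧ lb e ∉ Q)) (fun e => row e ∈ P),
        Finset.filter_filter, Finset.filter_filter]
      congr 1
      · congr 1
        ext e
        simp only [Finset.mem_filter]
        tauto
      · congr 1
        ext e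
        simp only [Finset.mem_filter]
        tauto
    rw [hout, houtP]
    exact_mod_cast e2
  -- numbers
  have hXQ : (1 : ℝ) ≤ (X.card : ℝ) - Q.card := by
    have : (Q.card : ℝ) + 1 ≤ X.card := by exact_mod_cast hQX
    linarith
  have hD0 : (0 : ℝ) ≤ D := Nat.cast_nonneg _
  have hinn_le : inn ≤ out - D * ((X.card : ℝ) - Q.card) := by nlinarith
  have hout_ge : (D : ℝ) * ((X.card : ℝ) - Q.card) ≤ out := by linarith
  have hr : 2 * ε / φ ≤ 1 / 10 := by
    rw [div_le_iff₀ hφ]
    linarith
  have hr0 : 0 ≤ 2 * ε / φ := by positivity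
  have h5 : 2 * ε / φ * (out + inn) ≤ 1 / 10 * (2 * out) := by
    have : out + inn ≤ 2 * out := by
      have : 0 ≤ (D : ℝ) * ((X.card : ℝ) - Q.card) := by positivity
      linarith
    have hs : 0 ≤ out + inn := by linarith
    nlinarith
  have h6 : ε * out ≤ 1 / 20 * out := by
    have : ε ≤ 1 / 20 := by linarith
    nlinarith
  have h7 : θ * (k1 * ((X.card : ℝ) + Q.card)) ≤ D / 4 := by
    have hX : (X.card : ℝ) ≤ n := by exact_mod_cast hXn
    have hQ : (Q.card : ℝ) ≤ n := by
      have : Q.card ≤ n := by omega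
      exact_mod_cast this
    have hk : (0 : ℝ) ≤ θ * k1 := mul_nonneg hθ (Nat.cast_nonneg _)
    nlinarith
  have h8 : (D : ℝ) / 4 ≤ D * ((X.card : ℝ) - Q.card) / 4 := by nlinarith
  nlinarith

end Pool.Agent.LN61
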