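import Mathlib

/-!
Product measures on the subsets of a finite set, Russo's formula, and the
resulting bound for monotone explorations.
-/

namespace Pool.Agent.LN61

open Finset

variable {Γ : Type*} [DecidableEq Γ]

/-- Expectation of `f L` for a `p`-random subset `L` of `U`. -/
noncomputable def ev (U : Finset Γ) (p : ℝ) (f : Finset Γ → ℝ) : ℝ :=
  ∑ L ∈ U.powerset, p ^ L.card * (1 - p) ^ (U \ L).card * f L

theorem ev_empty (p : ℝ) (f : Finset Γ → ℝ) : ev ∅ p f = f ∅ := by
  simp [ev]

theorem ev_insert {a : Γ} {U : Finset Γ} (ha : a ∉ U) (p : ℝ) (f : Finset Γ → ℝ) :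
    ev (insert a U) p f = (1 - p) * ev U p f + p * ev U p (fun L => f (insert a L)) := by
  unfold ev
  rw [Finset.sum_powerset_insert ha, Finset.mul_sum, Finset.mul_sum]
  congr 1
  · refine Finset.sum_congr rfl fun L hL => ?_
    have hLU : L ⊆ U := Finset.mem_powerset.1 hL
    have haL : a ∉ L := fun h => ha (hLU h)
    have h1 : insert a U \ L = insert a (U \ L) := by
      rw [Finset.insert_sdiff_of_notMem _ haL]
    have h2 : a ∉ U \ L := fun h => ha (Finset.mem_sdiff.1 h).1
    rw [h1, Finset.card_insert_of_notMem h2, pow_succ]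
    ring
  · refine Finset.sum_congr rfl fun L hL => ?_
    have hLU : L ⊆ U := Finset.mem_powerset.1 hL
    have haL : a ∉ L := fun h => ha (hLU h)
    have h1 : insert a U \ insert a L = U \ L := by
      ext x
      simp only [Finset.mem_sdiff, Finset.mem_insert]
      constructor
      · rintro ⟨h | h, h'⟩
        · exact absurd (Or.inl h) h'
        · exact ⟨h, fun hx => h' (Or.inr hx)⟩
      · rintro ⟨h, h'⟩
        refine ⟨Or.inr h, ?_⟩
        rintro (h2 | h2)
        · subst h2; exact ha h
        · exact h' h2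
    rw [h1, Finset.card_insert_of_notMem haL, pow_succ]
    ring

theorem ev_add (U : Finset Γ) (p : ℝ) (f g : Finset Γ → ℝ) :
    ev U p (fun L => f L + g L) = ev U p f + ev U p g := by
  unfold ev
  rw [← Finset.sum_add_distrib]
  exact Finset.sum_congr rfl fun L _ => by ring

theorem ev_sub (U : Finset Γ) (p : ℝ) (f g : Finset Γ → ℝ) :
    ev U p (fun L => f L - g L) = ev U p f - ev U p g := by
  unfold ev
  rw [← Finset.sum_sub_distrib]
  exact Finset.sum_congr rfl fun L _ => by ring

theorem ev_const_mul (U : Finset Γ) (p c : ℝ) (f : Finset Γ → ℝ) :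
    ev U p (fun L => c * f L) = c * ev U p f := by
  unfold ev
  rw [Finset.mul_sum]
  exact Finset.sum_congr rfl fun L _ => by ring

theorem ev_sum {ι : Type*} (s : Finset ι) (U : Finset Γ) (p : ℝ) (f : ι → Finset Γ → ℝ) :
    ev U p (fun L => ∑ i ∈ s, f i L) = ∑ i ∈ s, ev U p (f i) := by
  unfold ev
  rw [Finset.sum_comm]
  exact Finset.sum_congr rfl fun L _ => by rw [Finset.mul_sum]

theorem ev_mono {U : Finset Γ} {p : ℝ} (h0 : 0 ≤ p) (h1 : p ≤ 1) {f g : Finset Γ → ℝ}
    (h : ∀ L ⊆ U, f L ≤ g L) : ev U p f ≤ ev U p g := by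
  unfold ev
  refine Finset.sum_le_sum fun L hL => ?_
  have : 0 ≤ p ^ L.card * (1 - p) ^ (U \ L).card :=
    mul_nonneg (pow_nonneg h0 _) (pow_nonneg (by linarith) _)
  exact mul_le_mul_of_nonneg_left (h L (Finset.mem_powerset.1 hL)) this

theorem ev_congr {U : Finset Γ} {p : ℝ} {f g : Finset Γ → ℝ}
    (h : ∀ L ⊆ U, f L = g L) : ev U p f = ev U p g := by
  unfold ev
  exact Finset.sum_congr rfl fun L hL => by rw [h L (Finset.mem_powerset.1 hL)]

theorem ev_const (U : Finset Γ) (p c : ℝ) : ev U p (fun _ => c) = c := by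
  induction U using Finset.induction_on with
  | empty => exact ev_empty p _
  | insert a U ha ih => rw [ev_insert ha, ih]; ring

/-- Some subset does at least as well as the average. -/
theorem exists_le_of_ev_le {U : Finset Γ} {p : ℝ} (h0 : 0 ≤ p) (h1 : p ≤ 1)
    {f : Finset Γ → ℝ} {b : ℝ} (h : ev U p f ≤ b) : ∃ L ⊆ U, f L ≤ b := by
  by_contra hcon
  push Not at hcon
  -- the minimum of f over the powerset
  obtain ⟨L₀, hL₀, hmin⟩ := Finset.exists_min_image U.powerset f ⟨∅, Finset.empty_mem_powerset _⟩
  have hlt : b < f L₀ := hcon L₀ (Finset.mem_powerset.1 hL₀)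
  have : f L₀ ≤ ev U p f := by
    calc f L₀ = ev U p (fun _ => f L₀) := (ev_const U p _).symm
      _ ≤ ev U p f := ev_mono h0 h1 fun L hL => hmin L (Finset.mem_powerset.2 hL)
  linarith

/-- Russo's formula. -/
theorem hasDerivAt_ev (U : Finset Γ) (p : ℝ) (f : Finset Γ → ℝ) :
    HasDerivAt (fun q => ev U q f)
      (ev U p (fun L => ∑ c ∈ U, (f (insert c L) - f (L.erase c)))) p := by
  induction U using Finset.induction_on generalizing f with
  | empty =>
    have h1 : (fun q : ℝ => ev (∅ : Finset Γ) q f) = fun _ => f ∅ := by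
      funext q; exact ev_empty q f
    rw [h1, ev_empty]
    simpa using hasDerivAt_const p (f ∅)
  | insert a U ha ih =>
    have h1 : (fun q : ℝ => ev (insert a U) q f)
        = fun q => (1 - q) * ev U q f + q * ev U q (fun L => f (insert a L)) := by
      funext q; exact ev_insert ha q f
    rw [h1]
    have d0 : HasDerivAt (fun q : ℝ => 1 - q) (-1) p := by
      simpa using (hasDerivAt_id p).const_sub 1
    have d1 := d0.mul (ih f)
    have d2 := (hasDerivAt_id p).mul (ih (fun L => f (insert a L)))
    have d3 := d1.add d2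
    refine HasDerivAt.congr_deriv d3 ?_
    have e1 : ev (insert a U) p (fun L => ∑ c ∈ insert a U, (f (insert c L) - f (L.erase c)))
        = (1 - p) * ev U p (fun L => (f (insert a L) - f L) +
            ∑ c ∈ U, (f (insert c L) - f (L.erase c)))
          + p * ev U p (fun L => (f (insert a L) - f L) +
            ∑ c ∈ U, (f (insert a (insert c L)) - f (insert a (L.erase c)))) := by
      rw [ev_insert ha]
      congr 1
      · congr 1
        refine ev_congr fun L hL => ?_
        have haL : a ∉ L := fun h => ha (hL h)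
        rw [Finset.sum_insert ha, Finset.erase_eq_of_notMem haL]
      · congr 1
        refine ev_congr fun L hL => ?_
        have haL : a ∉ L := fun h => ha (hL h)
        rw [Finset.sum_insert ha, Finset.erase_insert haL, Finset.insert_idem]
        congr 1
        refine Finset.sum_congr rfl fun c hc => ?_
        have hca : a ≠ c := fun h => ha (h ▸ hc)
        rw [Finset.insert_comm c a L, Finset.erase_insert_of_ne hca]
    rw [e1, ev_add, ev_add, ev_sub]
    simp only [id]
    ring

theorem ev_antitone {U : Finset Γ} {f : Finset Γ → ℝ}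
    (hf : ∀ L ⊆ U, ∀ L' ⊆ L, f L ≤ f L') {p q : ℝ} (h0 : 0 ≤ p) (hpq : p ≤ q) (h1 : q ≤ 1) :
    ev U q f ≤ ev U p f := by
  have hanti : AntitoneOn (fun q => ev U q f) (Set.Icc (0 : ℝ) 1) := by
    refine antitoneOn_of_deriv_nonpos (convex_Icc 0 1) ?_ ?_ ?_
    · intro x _
      exact (hasDerivAt_ev U x f).continuousAt.continuousWithinAt
    · intro x _
      exact (hasDerivAt_ev U x f).differentiableAt.differentiableWithinAt
    · intro x hx
      rw [interior_Icc] at hx
      rw [(hasDerivAt_ev U x f).deriv]
      calc ev U x (fun L => ∑ c ∈ U, (f (insert c L) - f (L.erase c)))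
          ≤ ev U x (fun _ => 0) := by
            refine ev_mono hx.1.le hx.2.le fun L hL => ?_
            refine Finset.sum_nonpos fun c hc => ?_
            have : f (insert c L) ≤ f (L.erase c) :=
              hf (insert c L) (Finset.insert_subset hc hL) (L.erase c)
                ((Finset.erase_subset _ _).trans (Finset.subset_insert _ _))
            linarith
        _ = 0 := ev_const U x 0
  exact hanti ⟨h0, hpq.trans h1⟩ ⟨h0.trans hpq, h1⟩ hpq

/-- The failure bound of a monotone exploration. -/
theorem fail_bound {U : Finset Γ} {g : Finset Γ → ℝ} {fail : Finset Γ → Prop}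
    [DecidablePred fail] {G lam p : ℝ} (hp0 : 0 ≤ p) (hp1 : p ≤ 1) (hlam : 0 ≤ lam)
    (hg0 : ∀ L ⊆ U, 0 ≤ g L) (hgG : ∀ L ⊆ U, g L ≤ G)
    (hanti : ∀ L ⊆ U, ∀ L' ⊆ L, fail L → fail L')
    (hstep : ∀ L ⊆ U, (if fail L then lam else 0) ≤ ∑ c ∈ U, (g (insert c L) - g (L.erase c))) :
    lam * p * ev U p (fun L => if fail L then 1 else 0) ≤ G := by
  set F : ℝ := ev U p (fun L => if fail L then 1 else 0) with hF
  set h : ℝ → ℝ := fun q => ev U q g - lam * F * q with hh
  have hd : ∀ q, HasDerivAt h (ev U q (fun L => ∑ c ∈ U, (g (insert c L) - g (L.erase c)))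
      - lam * F) q := by
    intro q
    have h2 := (hasDerivAt_ev U q g).sub ((hasDerivAt_id q).const_mul (lam * F))
    rw [mul_one] at h2
    exact h2
  have hmono : MonotoneOn h (Set.Icc 0 p) := by
    refine monotoneOn_of_deriv_nonneg (convex_Icc 0 p) ?_ ?_ ?_
    · intro x _
      exact (hd x).continuousAt.continuousWithinAt
    · intro x _
      exact (hd x).differentiableAt.differentiableWithinAt
    · intro x hx
      rw [interior_Icc] at hx
      rw [(hd x).deriv]
      have hx1 : x ≤ 1 := hx.2.le.trans hp1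
      have h1 : ev U x (fun L => if fail L then lam else 0)
          ≤ ev U x (fun L => ∑ c ∈ U, (g (insert c L) - g (L.erase c))) :=
        ev_mono hx.1.le hx1 hstep
      have h2 : ev U x (fun L => if fail L then lam else 0)
          = lam * ev U x (fun L => if fail L then 1 else 0) := by
        rw [← ev_const_mul]
        refine ev_congr fun L _ => ?_
        split_ifs <;> simp
      have h3 : F ≤ ev U x (fun L => if fail L then 1 else 0) := by
        refine ev_antitone (f := fun L => if fail L then (1 : ℝ) else 0) ?_ hx.1.le hx.2.le hp1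
        intro L hL L' hL'
        by_cases h : fail L
        · simp [h, hanti L hL L' hL' h]
        · simp only [h, if_false]
          split_ifs <;> norm_num
      have h4 := mul_le_mul_of_nonneg_left h3 hlam
      linarith
  have h5 := hmono ⟨le_refl 0, hp0⟩ ⟨hp0, le_refl p⟩ hp0
  have h6 : 0 ≤ ev U 0 g := by
    calc (0 : ℝ) = ev U 0 (fun _ => 0) := (ev_const U 0 0).symm
      _ ≤ ev U 0 g := ev_mono le_rfl zero_le_one hg0
  have h7 : ev U p g ≤ G := by
    calc ev U p g ≤ ev U p (fun _ => G) := ev_mono hp0 hp1 hgG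
      _ = G := ev_const U p G
  simp only [hh] at h5
  nlinarith

/-- Exponential moment of the number of chosen elements of `A`. -/
theorem ev_exp_card (U A : Finset Γ) (p : ℝ) (h0 : 0 ≤ p) :
    ev U p (fun L => Real.exp ((A ∩ L).card)) ≤ Real.exp (2 * p * A.card) := by
  have key : ∀ U : Finset Γ, ev U p (fun L => Real.exp ((A ∩ L).card))
      = (1 + p * (Real.exp 1 - 1)) ^ (A ∩ U).card := by
    intro U
    induction U using Finset.induction_on with
    | empty => simp [ev_empty]
    | insert a U ha ih =>
      rw [ev_insert ha, ih]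
      by_cases haA : a ∈ A
      · have e1 : ev U p (fun L => Real.exp ((A ∩ insert a L).card))
            = Real.exp 1 * ev U p (fun L => Real.exp ((A ∩ L).card)) := by
          rw [← ev_const_mul]
          refine ev_congr fun L hL => ?_
          have haL : a ∉ A ∩ L := fun h => ha (hL (Finset.mem_inter.1 h).2)
          rw [Finset.inter_insert_of_mem haA, Finset.card_insert_of_notMem haL]
          push_cast
          rw [Real.exp_add, mul_comm]
        have haU : a ∉ A ∩ U := fun h => ha (Finset.mem_inter.1 h).2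
        rw [e1, ih, Finset.inter_insert_of_mem haA, Finset.card_insert_of_notMem haU, pow_succ]
        ring
      · have e1 : ev U p (fun L => Real.exp ((A ∩ insert a L).card))
            = ev U p (fun L => Real.exp ((A ∩ L).card)) := by
          refine ev_congr fun L _ => ?_
          rw [Finset.inter_insert_of_notMem haA]
        rw [e1, ih, Finset.inter_insert_of_notMem haA]
        ring
  rw [key U]
  have he : Real.exp 1 - 1 ≤ 2 := by
    have := Real.exp_one_lt_d9
    linarith
  have he0 : 0 ≤ Real.exp 1 - 1 := by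
    have := Real.add_one_le_exp (1 : ℝ)
    linarith
  have hb1 : 1 ≤ 1 + p * (Real.exp 1 - 1) := by nlinarith
  have hb2 : 1 + p * (Real.exp 1 - 1) ≤ Real.exp (2 * p) := by
    have h2 := Real.add_one_le_exp (2 * p)
    nlinarith
  calc (1 + p * (Real.exp 1 - 1)) ^ (A ∩ U).card
      ≤ (1 + p * (Real.exp 1 - 1)) ^ A.card :=
        pow_le_pow_right₀ hb1 (Finset.card_le_card Finset.inter_subset_left)
    _ ≤ (Real.exp (2 * p)) ^ A.card := by
        exact pow_le_pow_left₀ (by linarith) hb2 _
    _ = Real.exp (2 * p * A.card) := by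
        rw [← Real.exp_nat_mul]
        ring_nf

/-- One step of the random greedy process, derandomised: some set `L` of new
colours makes the total potential not larger than its average. -/
theorem exists_step {ι : Type*} {U : Finset Γ} {g : Finset Γ → ℝ} {fail : Finset Γ → Prop}
    [DecidablePred fail] {G lam p a kap : ℝ} (hp0 : 0 ≤ p) (hp1 : p ≤ 1) (hlam : 0 ≤ lam)
    (hg0 : ∀ L ⊆ U, 0 ≤ g L) (hgG : ∀ L ⊆ U, g L ≤ G) (hG : 0 < G)
    (hanti : ∀ L ⊆ U, ∀ L' ⊆ L, fail L → fail L')
    (hstep : ∀ L ⊆ U, (if fail L then lam else 0) ≤ ∑ c ∈ U, (g (insert c L) - g (L.erase c)))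
    (hp : 2 * G ≤ lam * p) (ha : 0 ≤ a) (hk : 0 ≤ kap)
    (I : Finset ι) (A : ι → Finset Γ) (x : ι → ℝ) :
    ∃ L ⊆ U, (if fail L then a else 0)
        + kap * ∑ i ∈ I, Real.exp (x i + (A i ∩ L).card - 2 * p * (A i).card)
      ≤ a / 2 + kap * ∑ i ∈ I, Real.exp (x i) := by
  have hfail : ev U p (fun L => if fail L then 1 else 0) ≤ 1 / 2 := by
    have h1 := fail_bound hp0 hp1 hlam hg0 hgG hanti hstep
    have h2 : 0 ≤ ev U p (fun L => if fail L then (1 : ℝ) else 0) := by
      calc (0 : ℝ) = ev U p (fun _ => 0) := (ev_const U p 0).symm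
        _ ≤ _ := ev_mono hp0 hp1 fun L _ => by split_ifs <;> norm_num
    by_contra hcon
    push Not at hcon
    nlinarith
  refine exists_le_of_ev_le (f := fun L => (if fail L then a else 0)
        + kap * ∑ i ∈ I, Real.exp (x i + (A i ∩ L).card - 2 * p * (A i).card)) hp0 hp1 ?_
  rw [ev_add, ev_const_mul, ev_sum]
  have h1 : ev U p (fun L => if fail L then a else 0)
      = a * ev U p (fun L => if fail L then 1 else 0) := by
    rw [← ev_const_mul]
    refine ev_congr fun L _ => ?_
    split_ifs <;> simp
  have h2 : ∀ i ∈ I, ev U p (fun L => Real.exp (x i + (A i ∩ L).card - 2 * p * (A i).card))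
      ≤ Real.exp (x i) := by
    intro i _
    have e1 : ev U p (fun L => Real.exp (x i + (A i ∩ L).card - 2 * p * (A i).card))
        = Real.exp (x i - 2 * p * (A i).card) * ev U p (fun L => Real.exp ((A i ∩ L).card)) := by
      rw [← ev_const_mul]
      refine ev_congr fun L _ => ?_
      rw [← Real.exp_add]
      congr 1
      ring
    rw [e1]
    calc Real.exp (x i - 2 * p * (A i).card) * ev U p (fun L => Real.exp ((A i ∩ L).card))
        ≤ Real.exp (x i - 2 * p * (A i).card) * Real.exp (2 * p * (A i).card) :=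
          mul_le_mul_of_nonneg_left (ev_exp_card U (A i) p hp0) (Real.exp_pos _).le
      _ = Real.exp (x i) := by
          rw [← Real.exp_add]
          congr 1
          ring
  rw [h1]
  have h3 := Finset.sum_le_sum h2
  have h4 := mul_le_mul_of_nonneg_left h3 hk
  have h5 := mul_le_mul_of_nonneg_left hfail ha
  linarith

end Pool.Agent.LN61
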